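import Mathlib

namespace Pool.Agent.Results.MP_567833_co.TauNotSubadditive

open Finset SimpleGraph

/-- The disjoint union of `t` copies of the path with three vertices. -/
def tP3 (t : ℕ) : SimpleGraph (Fin t × Fin 3) where
  Adj x y := x.1 = y.1 ∧ (x.2.val + 1 = y.2.val ∨ y.2.val + 1 = x.2.val)
  symm := ⟨fun _ _ h => ⟨h.1.symm, h.2.symm⟩⟩
  loopless := ⟨fun _ h => by have := h.2; omega⟩

/-- The sum of the labels of the edges incident with `v`. -/
noncomputable def vertexSum {V : Type} (G : SimpleGraph V) (f : Sym2 V → ℕ) (v : V) : ℕ :=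
  ∑ᶠ e ∈ G.incidenceSet v, f e

/-- `G` has an antimagic labelling: a bijection from the edges onto `{1, …, m}` whose vertex sums
are pairwise distinct. -/
def IsAntimagic {V : Type} (G : SimpleGraph V) : Prop :=
  ∃ f : Sym2 V → ℕ, Set.BijOn f G.edgeSet (Set.Icc 1 G.edgeSet.ncard) ∧
    Function.Injective (vertexSum G f)

/-- `t` is the largest integer such that `G ∪ t' P₃` is antimagic for every `t' ≤ t`. -/
def IsTau {V : Type} (G : SimpleGraph V) (t : ℕ) : Prop :=
  IsGreatest {s : ℕ | ∀ t' ≤ s, IsAntimagic (G ⊕g tP3 t')} t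

/-- The star with 17 leaves together with 35 copies of `P₃`. -/
abbrev graphG : SimpleGraph ((Fin 1 ⊕ Fin 17) ⊕ Fin 35 × Fin 3) :=
  completeBipartiteGraph (Fin 1) (Fin 17) ⊕g tP3 35

/-- The 4-cycle together with 10 copies of `P₃`. -/
abbrev graphH : SimpleGraph (Fin 4 ⊕ Fin 10 × Fin 3) :=
  cycleGraph 4 ⊕g tP3 10

/-! ### Edge enumerations -/

structure Enum {V ι : Type} (G : SimpleGraph V) (a b : ι → V) : Prop where
  adj : ∀ i, G.Adj (a i) (b i)
  surj : ∀ u v, G.Adj u v → ∃ i, s(a i, b i) = s(u, v)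
  inj : ∀ i j, s(a i, b i) = s(a j, b j) → i = j

def phi {V ι : Type} [Fintype ι] [DecidableEq V] (a b : ι → V) (σ : ι → ℕ) (v : V) : ℕ :=
  ∑ i, if a i = v ∨ b i = v then σ i else 0

section general
variable {V ι : Type} {G : SimpleGraph V} {a b : ι → V}

lemma Enum.bij (h : Enum G a b) : Set.BijOn (fun i => s(a i, b i)) Set.univ G.edgeSet := by
  refine ⟨fun i _ => h.adj i, fun i _ j _ e => h.inj i j e, ?_⟩
  intro e he
  induction e using Sym2.ind with
  | _ u v =>
    obtain ⟨i, hi⟩ := h.surj u v he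
    exact ⟨i, trivial, hi⟩

lemma Enum.ncard [Fintype ι] (h : Enum G a b) : G.edgeSet.ncard = Fintype.card ι := by
  rw [← h.bij.image_eq, Set.ncard_image_of_injective _ (fun i j e => h.inj i j e), Set.ncard_univ,
    Nat.card_eq_fintype_card]

lemma Enum.vertexSum_eq [Fintype ι] [DecidableEq V] (h : Enum G a b) (f : Sym2 V → ℕ) (v : V) :
    vertexSum G f v = phi a b (fun i => f s(a i, b i)) v := by
  have h1 : G.incidenceSet v =
      (fun i => s(a i, b i)) '' ((univ.filter (fun i => a i = v ∨ b i = v) : Finset ι) : Set ι) := by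
    ext e
    constructor
    · rintro ⟨he, hv⟩
      obtain ⟨i, -, rfl⟩ := h.bij.surjOn he
      refine ⟨i, ?_, rfl⟩
      simp only [coe_filter, mem_univ, true_and, Set.mem_setOf_eq]
      rcases Sym2.mem_iff.1 hv with h2 | h2
      · exact Or.inl h2.symm
      · exact Or.inr h2.symm
    · rintro ⟨i, hi, rfl⟩
      simp only [coe_filter, mem_univ, true_and, Set.mem_setOf_eq] at hi
      refine ⟨h.adj i, Sym2.mem_iff.2 ?_⟩
      rcases hi with h2 | h2
      · exact Or.inl h2.symm
      · exact Or.inr h2.symm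
  unfold vertexSum phi
  rw [h1, finsum_mem_image (fun i _ j _ e => h.inj i j e), finsum_mem_coe_finset, Finset.sum_filter]

lemma Enum.iff [Fintype ι] [DecidableEq V] (h : Enum G a b) :
    IsAntimagic G ↔ ∃ σ : ι → ℕ, Set.BijOn σ Set.univ (Set.Icc 1 (Fintype.card ι)) ∧
      Function.Injective (phi a b σ) := by
  unfold IsAntimagic
  rw [h.ncard]
  constructor
  · rintro ⟨f, hf, hi⟩
    refine ⟨fun i => f s(a i, b i), hf.comp h.bij, ?_⟩
    intro u v huv
    apply hi
    rw [h.vertexSum_eq, h.vertexSum_eq, huv]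
  · rintro ⟨σ, hσ, hi⟩
    have hinj : Function.Injective (fun i => s(a i, b i)) := fun i j e => h.inj i j e
    have hf : ∀ i, Function.extend (fun i => s(a i, b i)) σ 0 s(a i, b i) = σ i :=
      fun i => hinj.extend_apply σ 0 i
    refine ⟨Function.extend (fun i => s(a i, b i)) σ 0, ⟨?_, ?_, ?_⟩, ?_⟩
    · intro e he
      obtain ⟨i, -, rfl⟩ := h.bij.surjOn he
      show Function.extend (fun i => s(a i, b i)) σ 0 s(a i, b i) ∈ _
      rw [hf]
      exact hσ.mapsTo trivial
    · intro e he e' he' hee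
      obtain ⟨i, -, rfl⟩ := h.bij.surjOn he
      obtain ⟨j, -, rfl⟩ := h.bij.surjOn he'
      have h2 : σ i = σ j := by rw [← hf, ← hf]; exact hee
      rw [hσ.injOn trivial trivial h2]
    · intro x hx
      obtain ⟨i, -, rfl⟩ := hσ.surjOn hx
      exact ⟨s(a i, b i), h.adj i, hf i⟩
    · intro u v huv
      apply hi
      rw [h.vertexSum_eq, h.vertexSum_eq] at huv
      simpa only [hf] using huv

lemma Enum.sum {W κ : Type} {H : SimpleGraph W} {c d : κ → W} (h : Enum G a b) (k : Enum H c d) :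
    Enum (G ⊕g H) (Sum.map a c) (Sum.map b d) := by
  refine ⟨?_, ?_, ?_⟩
  · rintro (i | i)
    · exact h.adj i
    · exact k.adj i
  · rintro (u | u) (v | v) huv
    · obtain ⟨i, hi⟩ := h.surj u v huv
      refine ⟨Sum.inl i, ?_⟩
      simpa using hi
    · exact absurd huv (by simp)
    · exact absurd huv (by simp)
    · obtain ⟨i, hi⟩ := k.surj u v huv
      refine ⟨Sum.inr i, ?_⟩
      simpa using hi
  · rintro (i | i) (j | j) e
    · rw [h.inj i j (by simpa using e)]
    · simp at e
    · simp at e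
    · rw [k.inj i j (by simpa using e)]

lemma tri (T : Finset ℕ) : (∀ x ∈ T, 1 ≤ x) → T.card * (T.card + 1) ≤ 2 * ∑ x ∈ T, x := by
  induction T using Finset.induction_on_max with
  | empty => simp
  | insert m T hm ih =>
    intro h
    have hn : m ∉ T := fun x => lt_irrefl _ (hm m x)
    rw [card_insert_of_notMem hn, sum_insert hn]
    have h1 := ih (fun x hx => h x (mem_insert_of_mem hx))
    have h2 : T ⊆ Finset.Ico 1 m := fun x hx =>
      Finset.mem_Ico.2 ⟨h x (mem_insert_of_mem hx), hm x hx⟩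
    have h3 := card_le_card h2
    rw [Nat.card_Ico] at h3
    have h4 := h m (mem_insert_self _ _)
    have h5 : T.card + 1 ≤ m := by omega
    nlinarith

lemma tri' {α : Type} (S : Finset α) (g : α → ℕ) (hg : Function.Injective g)
    (hp : ∀ x ∈ S, 1 ≤ g x) : S.card * (S.card + 1) ≤ 2 * ∑ x ∈ S, g x := by
  have h := tri (S.map ⟨g, hg⟩) (by
    intro x hx
    obtain ⟨y, hy, rfl⟩ := mem_map.1 hx
    exact hp y hy)
  rwa [card_map, sum_map] at h

lemma sum_Icc_id (m : ℕ) : 2 * ∑ x ∈ Finset.Icc 1 m, x = m * (m + 1) := by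
  induction m with
  | zero => simp
  | succ m ih => rw [Finset.sum_Icc_succ_top (by omega), mul_add, ih]; ring

lemma total [Fintype ι] [Fintype V] [DecidableEq V] (h : Enum G a b) (σ : ι → ℕ)
    (hσ : Set.BijOn σ Set.univ (Set.Icc 1 (Fintype.card ι))) :
    ∑ v, phi a b σ v = Fintype.card ι * (Fintype.card ι + 1) := by
  unfold phi
  rw [Finset.sum_comm, ← sum_Icc_id]
  have h1 : ∀ i, (∑ v, if a i = v ∨ b i = v then σ i else 0) = 2 * σ i := by
    intro i
    have hne : a i ≠ b i := (h.adj i).ne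
    rw [← Finset.sum_filter]
    have : (univ.filter (fun v => a i = v ∨ b i = v)) = {a i, b i} := by
      ext v
      simp [eq_comm]
    rw [this, sum_const, card_pair hne, smul_eq_mul]
  rw [Finset.sum_congr rfl (fun i _ => h1 i), ← Finset.mul_sum]
  have h2 : ∑ i, σ i = ∑ x ∈ Finset.Icc 1 (Fintype.card ι), x := by
    apply Finset.sum_nbij σ
    · intro i _
      have := hσ.mapsTo (Set.mem_univ i)
      exact Finset.mem_Icc.2 this
    · intro i _ j _ e
      exact hσ.injOn trivial trivial e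
    · intro x hx
      obtain ⟨i, -, rfl⟩ := hσ.surjOn (show x ∈ Set.Icc 1 (Fintype.card ι) by simpa using hx)
      exact ⟨i, by simp, rfl⟩
    · intro i _
      rfl
  rw [h2]

lemma phi_pos [Fintype ι] [DecidableEq V] (σ : ι → ℕ) (hp : ∀ i, 1 ≤ σ i) (v : V)
    (hv : ∃ i, a i = v ∨ b i = v) : 1 ≤ phi a b σ v := by
  obtain ⟨i, hi⟩ := hv
  have := Finset.single_le_sum (f := fun i => if a i = v ∨ b i = v then σ i else 0)
    (fun _ _ => Nat.zero_le _) (mem_univ i)
  simp only [hi, if_true] at this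
  exact le_trans (hp i) this

/-- Counting bound. -/
lemma bound1 [Fintype ι] [Fintype V] [DecidableEq V] (h : Enum G a b)
    (hv : ∀ v, ∃ i, a i = v ∨ b i = v) (hA : IsAntimagic G) :
    Fintype.card V * (Fintype.card V + 1) ≤ 2 * (Fintype.card ι * (Fintype.card ι + 1)) := by
  obtain ⟨σ, hσ, hi⟩ := h.iff.1 hA
  rw [← total h σ hσ]
  exact tri' univ _ hi (fun v _ => phi_pos σ (fun i => (hσ.mapsTo (Set.mem_univ i)).1) v (hv v))

/-- Counting bound with one vertex of large degree. -/
lemma bound2 [Fintype ι] [Fintype V] [DecidableEq V] (h : Enum G a b)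
    (hv : ∀ v, ∃ i, a i = v ∨ b i = v) (c : V) (d : ℕ)
    (hd : (univ.filter (fun i => a i = c ∨ b i = c)).card = d) (hA : IsAntimagic G) :
    (Fintype.card V - 1) * (Fintype.card V - 1 + 1) + d * (d + 1) ≤
      2 * (Fintype.card ι * (Fintype.card ι + 1)) := by
  obtain ⟨σ, hσ, hi⟩ := h.iff.1 hA
  have hp : ∀ i, 1 ≤ σ i := fun i => (hσ.mapsTo (Set.mem_univ i)).1
  rw [← total h σ hσ, ← Finset.sum_erase_add _ _ (mem_univ c), mul_add 2]
  have h1 := tri' (univ.erase c) _ hi (fun v _ => phi_pos σ hp v (hv v))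
  rw [card_erase_of_mem (mem_univ c), card_univ] at h1
  have h2 := tri' (univ.filter (fun i => a i = c ∨ b i = c)) σ
    (fun i j e => hσ.injOn trivial trivial e) (fun i _ => hp i)
  rw [hd, Finset.sum_filter] at h2
  exact Nat.add_le_add h1 h2

lemma cert [Fintype ι] [DecidableEq V] (h : Enum G a b) (σ : ι → ℕ) (g : V → ℕ)
    (h1 : ∀ i, 1 ≤ σ i ∧ σ i ≤ Fintype.card ι) (h2 : ∀ i j, σ i = σ j → i = j)
    (h3 : ∀ v, phi a b σ v = g v) (h4 : ∀ u v, g u = g v → u = v) : IsAntimagic G := by
  refine h.iff.2 ⟨σ, ⟨fun i _ => h1 i, fun i _ j _ e => h2 i j e, ?_⟩, ?_⟩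
  · intro x hx
    have hs : (univ.image σ) = Finset.Icc 1 (Fintype.card ι) := by
      apply Finset.eq_of_subset_of_card_le
      · intro y hy
        obtain ⟨i, -, rfl⟩ := mem_image.1 hy
        exact Finset.mem_Icc.2 (h1 i)
      · rw [card_image_of_injective _ (fun i j e => h2 i j e), card_univ, Nat.card_Icc]
        omega
    have : x ∈ univ.image σ := by
      rw [hs]
      exact Finset.mem_Icc.2 hx
    obtain ⟨i, -, rfl⟩ := mem_image.1 this
    exact ⟨i, trivial, rfl⟩
  · intro u v huv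
    apply h4
    rw [← h3, ← h3, huv]

end general

/-! ### The concrete enumerations -/

def pa (t : ℕ) (x : Fin t × Fin 2) : Fin t × Fin 3 := (x.1, x.2.castSucc)
def pb (t : ℕ) (x : Fin t × Fin 2) : Fin t × Fin 3 := (x.1, x.2.succ)

lemma enumP (t : ℕ) : Enum (tP3 t) (pa t) (pb t) := by
  refine ⟨fun i => ⟨rfl, Or.inl rfl⟩, ?_, ?_⟩
  · rintro ⟨u, x⟩ ⟨v, y⟩ ⟨h1, h2⟩
    simp only at h1 h2
    subst h1
    have hx := x.isLt
    have hy := y.isLt
    rcases h2 with h2 | h2
    · refine ⟨(u, ⟨x.val, by omega⟩), ?_⟩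
      have e1 : pa t (u, ⟨x.val, by omega⟩) = (u, x) := Prod.ext rfl (Fin.ext rfl)
      have e2 : pb t (u, ⟨x.val, by omega⟩) = (u, y) := Prod.ext rfl (Fin.ext h2)
      rw [e1, e2]
    · refine ⟨(u, ⟨y.val, by omega⟩), ?_⟩
      have e1 : pa t (u, ⟨y.val, by omega⟩) = (u, y) := Prod.ext rfl (Fin.ext rfl)
      have e2 : pb t (u, ⟨y.val, by omega⟩) = (u, x) := Prod.ext rfl (Fin.ext h2)
      rw [e1, e2, Sym2.eq_swap]
  · rintro ⟨u, x⟩ ⟨v, y⟩ e
    simp only [pa, pb, Sym2.eq_iff, Prod.mk.injEq, Fin.ext_iff, Fin.val_castSucc,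
      Fin.val_succ] at e ⊢
    omega

def sa (_ : Fin 17) : Fin 1 ⊕ Fin 17 := Sum.inl 0
def sb (i : Fin 17) : Fin 1 ⊕ Fin 17 := Sum.inr i

lemma enumS : Enum (completeBipartiteGraph (Fin 1) (Fin 17)) sa sb := by
  refine ⟨fun i => by simp [sa, sb], ?_, ?_⟩
  · rintro (u | u) (v | v) h
    · simp at h
    · exact ⟨v, by simp [sa, sb, Subsingleton.elim u 0]⟩
    · exact ⟨u, by simp [sa, sb, Subsingleton.elim v 0]⟩
    · simp at h
  · intro i j e
    simpa [sa, sb] using e

def ca (i : Fin 4) : Fin 4 := i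
def cb (i : Fin 4) : Fin 4 := i + 1

lemma enumC : Enum (cycleGraph 4) ca cb := by
  refine ⟨?_, ?_, ?_⟩ <;> decide

def tb (K i : ℕ) : ℕ := (K >>> (8 * i)) % 256

/-- labels of copies of the path -/
def lp (t K : ℕ) (x : Fin t × Fin 2) : ℕ := tb K (2 * x.1.val + x.2.val)
/-- vertex sums of copies of the path -/
def gp (t K : ℕ) (x : Fin t × Fin 3) : ℕ :=
  (if x.2.val ≤ 1 then tb K (2 * x.1.val) else 0) + (if 1 ≤ x.2.val then tb K (2 * x.1.val + 1) else 0)
def ls (i : Fin 17) : ℕ := i.val + 1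
def gs : Fin 1 ⊕ Fin 17 → ℕ := Sum.elim (fun _ => 153) (fun i => i.val + 1)
def lc (K : ℕ) (i : Fin 4) : ℕ := tb K i.val
def gc (K : ℕ) (i : Fin 4) : ℕ := tb K i.val + tb K ((i.val + 3) % 4)

def kG : ℕ := 932103230846575672393115950551701960438019283930924510209555324271658625014776026324553251191826178625062706336269570253432891812284125320144561233603649473130924300050
def kHc : ℕ := 236258326
def kH : ℕ := 46096686366755305866396225007379185442608906499
def k0c : ℕ := 1161710916
def k0a : ℕ := 858278078331467478374261444380690119388604870453766094227541906525419669180812819720152716082933382939579292147327546102128045905788967687862661133961250100492952101394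
def k0b : ℕ := 458420677012712864830330087793842676751541163833
def k1c : ℕ := 1195916353
def k1a : ℕ := 1315282015494351592203470863044390782748761864048986494336687132429270446874364703879025032531831006467304934864421626233311841233924673300660667876758153942448412516626
def k1b : ℕ := 464130539254638179647966238435948843686656892473
def k1d : ℕ := 21581

lemma enumG : Enum graphG (Sum.map sa (pa 35)) (Sum.map sb (pb 35)) := enumS.sum (enumP 35)
lemma enumH : Enum graphH (Sum.map ca (pa 10)) (Sum.map cb (pb 10)) := enumC.sum (enumP 10)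

set_option synthInstance.maxSize 4000 in
lemma amG : IsAntimagic graphG :=
  cert enumG (Sum.elim ls (lp 35 kG)) (Sum.elim gs (gp 35 kG))
    (by decide +kernel) (by decide +kernel) (by decide +kernel) (by decide +kernel)

set_option synthInstance.maxSize 4000 in
lemma amH : IsAntimagic graphH :=
  cert enumH (Sum.elim (lc kHc) (lp 10 kH)) (Sum.elim (gc kHc) (gp 10 kH))
    (by decide +kernel) (by decide +kernel) (by decide +kernel) (by decide +kernel)

set_option synthInstance.maxSize 4000 in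
lemma amG0 : IsAntimagic (graphG ⊕g tP3 0) :=
  cert (enumG.sum (enumP 0)) (Sum.elim (Sum.elim ls (lp 35 kG)) (lp 0 0))
    (Sum.elim (Sum.elim gs (gp 35 kG)) (gp 0 0))
    (by decide +kernel) (by decide +kernel) (by decide +kernel) (by decide +kernel)

set_option synthInstance.maxSize 4000 in
lemma amH0 : IsAntimagic (graphH ⊕g tP3 0) :=
  cert (enumH.sum (enumP 0)) (Sum.elim (Sum.elim (lc kHc) (lp 10 kH)) (lp 0 0))
    (Sum.elim (Sum.elim (gc kHc) (gp 10 kH)) (gp 0 0))
    (by decide +kernel) (by decide +kernel) (by decide +kernel) (by decide +kernel)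

set_option synthInstance.maxSize 4000 in
lemma amU0 : IsAntimagic ((graphG ⊕g graphH) ⊕g tP3 0) :=
  cert ((enumG.sum enumH).sum (enumP 0))
    (Sum.elim (Sum.elim (Sum.elim ls (lp 35 k0a)) (Sum.elim (lc k0c) (lp 10 k0b))) (lp 0 0))
    (Sum.elim (Sum.elim (Sum.elim gs (gp 35 k0a)) (Sum.elim (gc k0c) (gp 10 k0b))) (gp 0 0))
    (by decide +kernel) (by decide +kernel) (by decide +kernel) (by decide +kernel)

set_option synthInstance.maxSize 4000 in
lemma amU1 : IsAntimagic ((graphG ⊕g graphH) ⊕g tP3 1) :=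
  cert ((enumG.sum enumH).sum (enumP 1))
    (Sum.elim (Sum.elim (Sum.elim ls (lp 35 k1a)) (Sum.elim (lc k1c) (lp 10 k1b))) (lp 1 k1d))
    (Sum.elim (Sum.elim (Sum.elim gs (gp 35 k1a)) (Sum.elim (gc k1c) (gp 10 k1b))) (gp 1 k1d))
    (by decide +kernel) (by decide +kernel) (by decide +kernel) (by decide +kernel)

set_option synthInstance.maxSize 4000 in
lemma nG1 : ¬ IsAntimagic (graphG ⊕g tP3 1) := fun h => by
  have := bound2 (enumG.sum (enumP 1)) (by decide +kernel) (Sum.inl (Sum.inl (Sum.inl 0))) 17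
    (by decide +kernel) h
  simp at this

set_option synthInstance.maxSize 4000 in
lemma nH1 : ¬ IsAntimagic (graphH ⊕g tP3 1) := fun h => by
  have := bound1 (enumH.sum (enumP 1)) (by decide +kernel) h
  simp at this

set_option synthInstance.maxSize 4000 in
lemma nU2 : ¬ IsAntimagic ((graphG ⊕g graphH) ⊕g tP3 2) := fun h => by
  have := bound1 ((enumG.sum enumH).sum (enumP 2)) (by decide +kernel) h
  simp at this

theorem result :
    IsAntimagic graphG ∧ IsAntimagic graphH ∧
      IsTau graphG 0 ∧ IsTau graphH 0 ∧ IsTau (graphG ⊕g graphH) 1 := by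
  refine ⟨amG, amH, ⟨?_, ?_⟩, ⟨?_, ?_⟩, ⟨?_, ?_⟩⟩
  · intro t ht
    obtain rfl : t = 0 := by omega
    exact amG0
  · intro s hs
    by_contra hc
    exact nG1 (hs 1 (by omega))
  · intro t ht
    obtain rfl : t = 0 := by omega
    exact amH0
  · intro s hs
    by_contra hc
    exact nH1 (hs 1 (by omega))
  · intro t ht
    obtain rfl | rfl : t = 0 ∨ t = 1 := by omega
    · exact amU0
    · exact amU1
  · intro s hs
    by_contra hc
    exact nU2 (hs 2 (by omega))

end Pool.Agent.Results.MP_567833_co.TauNotSubadditive
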